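import Pool.Agent.H5.EG.Spec2

/-! # EG: even graphs fixed by the rotation of m cycles of odd length r -/

set_option autoImplicit false
set_option linter.unusedSectionVars false
set_option linter.unusedSimpArgs false

namespace Pool.Agent.H94.EG

open Finset Pool.Agent.H5.EG
open scoped Classical

section basics

variable {r : ℕ} [NeZero r]

/-- residues as elements of `Fin r` -/
def fr (t : ZMod r) : Fin r := ⟨t.val, ZMod.val_lt t⟩

theorem fr_cast (t : ZMod r) : ((fr t : ℕ) : ZMod r) = t := ZMod.natCast_zmod_val t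

theorem cast_fr (d : Fin r) : fr ((d : ℕ) : ZMod r) = d := by
  apply Fin.ext
  exact ZMod.val_cast_of_lt d.2

/-- the small nonzero residues -/
def hf (r : ℕ) (d : Fin ((r - 1) / 2)) : ZMod r := (((d : ℕ) + 1 : ℕ) : ZMod r)

theorem hf_val (d : Fin ((r - 1) / 2)) : (hf r d).val = (d : ℕ) + 1 := by
  have := d.2
  exact ZMod.val_cast_of_lt (by omega)

theorem hf_ne (d : Fin ((r - 1) / 2)) : hf r d ≠ 0 := by
  intro h
  have := hf_val (r := r) d
  rw [h, ZMod.val_zero] at this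
  omega

theorem hf_inj {d d' : Fin ((r - 1) / 2)} (h : hf r d = hf r d') : d = d' := by
  have h1 := hf_val (r := r) d
  have h2 := hf_val (r := r) d'
  rw [h] at h1
  apply Fin.ext
  omega

theorem hf_neg (d d' : Fin ((r - 1) / 2)) : hf r d ≠ - hf r d' := by
  intro h
  have h3 : hf r d + hf r d' = 0 := by rw [h]; ring
  have h4 : ((((d : ℕ) + 1) + ((d' : ℕ) + 1) : ℕ) : ZMod r) = 0 := by
    rw [Nat.cast_add]
    exact h3
  rw [ZMod.natCast_eq_zero_iff] at h4
  have := d.2
  have := d'.2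
  have := Nat.le_of_dvd (by omega) h4
  omega

theorem hf_cover (hr : Odd r) (t : ZMod r) (ht : t ≠ 0) : ∃ d, t = hf r d ∨ - t = hf r d := by
  have h1 : t.val ≠ 0 := by rwa [Ne, ZMod.val_eq_zero]
  have h2 := ZMod.val_lt t
  obtain ⟨k, hk⟩ := hr
  by_cases h : t.val ≤ k
  · refine ⟨⟨t.val - 1, by omega⟩, Or.inl ?_⟩
    unfold hf
    have : (t.val - 1 + 1 : ℕ) = t.val := by omega
    simp only [this]
    exact (ZMod.natCast_zmod_val t).symm
  · refine ⟨⟨r - t.val - 1, by omega⟩, Or.inr ?_⟩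
    unfold hf
    have : (r - t.val - 1 + 1 : ℕ) = r - t.val := by omega
    simp only [this]
    rw [Nat.cast_sub h2.le, ZMod.natCast_self, ZMod.natCast_zmod_val, zero_sub]

end basics

variable {m r : ℕ} [NeZero r]

/-- adjacency from orbit data -/
def AdjR (S : Finset ((Fin m × Fin m) × Fin r)) (P : Finset (Fin m × Fin ((r - 1) / 2)))
    (u v : Fin m × ZMod r) : Prop :=
  (u.1 < v.1 ∧ ((u.1, v.1), fr (v.2 - u.2)) ∈ S) ∨ (v.1 < u.1 ∧ ((v.1, u.1), fr (u.2 - v.2)) ∈ S) ∨
  (u.1 = v.1 ∧ ∃ d, (u.1, d) ∈ P ∧ (v.2 - u.2 = hf r d ∨ u.2 - v.2 = hf r d))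

theorem AdjR.symm {S : Finset ((Fin m × Fin m) × Fin r)} {P : Finset (Fin m × Fin ((r - 1) / 2))}
    {u v : Fin m × ZMod r} (h : AdjR S P u v) : AdjR S P v u := by
  rcases h with h | h | ⟨h, d, h1, h2⟩
  · exact Or.inr (Or.inl h)
  · exact Or.inl h
  · refine Or.inr (Or.inr ⟨h.symm, d, ?_, h2.symm⟩)
    rwa [← h]

/-- the graph from orbit data -/
def Gr (S : Finset ((Fin m × Fin m) × Fin r)) (P : Finset (Fin m × Fin ((r - 1) / 2))) :
    SimpleGraph (Fin m × ZMod r) where
  Adj := AdjR S P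
  symm := ⟨fun _ _ h => h.symm⟩
  loopless := ⟨fun u h => by
    rcases h with h | h | ⟨_, d, _, h2 | h2⟩
    · exact lt_irrefl _ h.1
    · exact lt_irrefl _ h.1
    · rw [sub_self] at h2
      exact hf_ne d h2.symm
    · rw [sub_self] at h2
      exact hf_ne d h2.symm⟩

/-- neighbours in other cycles, first half -/
theorem card1 (S : Finset ((Fin m × Fin m) × Fin r)) (hS : ∀ e ∈ S, e.1.1 < e.1.2) (a : Fin m)
    (i : ZMod r) : (univ.filter (fun w : Fin m × ZMod r =>
      a < w.1 ∧ ((a, w.1), fr (w.2 - i)) ∈ S)).card = (S.filter (fun e => e.1.1 = a)).card := by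
  refine Finset.card_nbij' (fun w => ((a, w.1), fr (w.2 - i)))
    (fun e => (e.1.2, i + ((e.2 : ℕ) : ZMod r))) ?_ ?_ ?_ ?_
  · intro w hw
    simp only [coe_filter, mem_univ, true_and, Set.mem_ofPred_eq] at hw ⊢
    exact ⟨hw.2, trivial⟩
  · rintro ⟨⟨x, b⟩, d⟩ he
    simp only [coe_filter, mem_univ, true_and, Set.mem_ofPred_eq] at he ⊢
    obtain ⟨he, rfl⟩ := he
    refine ⟨hS _ he, ?_⟩
    rw [add_sub_cancel_left, cast_fr]
    exact he
  · rintro ⟨b, j⟩ hw
    simp only [fr_cast, add_sub_cancel]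
  · rintro ⟨⟨x, b⟩, d⟩ he
    simp only [coe_filter, mem_univ, true_and, Set.mem_ofPred_eq] at he
    obtain ⟨he, rfl⟩ := he
    simp only [add_sub_cancel_left, cast_fr]

theorem card2 (S : Finset ((Fin m × Fin m) × Fin r)) (hS : ∀ e ∈ S, e.1.1 < e.1.2) (a : Fin m)
    (i : ZMod r) : (univ.filter (fun w : Fin m × ZMod r =>
      w.1 < a ∧ ((w.1, a), fr (i - w.2)) ∈ S)).card = (S.filter (fun e => e.1.2 = a)).card := by
  refine Finset.card_nbij' (fun w => ((w.1, a), fr (i - w.2)))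
    (fun e => (e.1.1, i - ((e.2 : ℕ) : ZMod r))) ?_ ?_ ?_ ?_
  · intro w hw
    simp only [coe_filter, mem_univ, true_and, Set.mem_ofPred_eq] at hw ⊢
    exact ⟨hw.2, trivial⟩
  · rintro ⟨⟨x, b⟩, d⟩ he
    simp only [coe_filter, mem_univ, true_and, Set.mem_ofPred_eq] at he ⊢
    obtain ⟨he, rfl⟩ := he
    refine ⟨hS _ he, ?_⟩
    rw [sub_sub_cancel, cast_fr]
    exact he
  · rintro ⟨b, j⟩ hw
    simp only [fr_cast, sub_sub_cancel]
  · rintro ⟨⟨x, b⟩, d⟩ he
    simp only [coe_filter, mem_univ, true_and, Set.mem_ofPred_eq] at he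
    obtain ⟨he, rfl⟩ := he
    simp only [sub_sub_cancel, cast_fr]

theorem card3 (P : Finset (Fin m × Fin ((r - 1) / 2))) (a : Fin m) (i : ZMod r) :
    (univ.filter (fun w : Fin m × ZMod r =>
      a = w.1 ∧ ∃ d, (a, d) ∈ P ∧ (w.2 - i = hf r d ∨ i - w.2 = hf r d))).card =
      2 * (P.filter (fun p => p.1 = a)).card := by
  have h1 : (univ.filter (fun w : Fin m × ZMod r =>
      a = w.1 ∧ ∃ d, (a, d) ∈ P ∧ (w.2 - i = hf r d ∨ i - w.2 = hf r d))) =
      (P.filter (fun p => p.1 = a)).image (fun p => (a, i + hf r p.2)) ∪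
      (P.filter (fun p => p.1 = a)).image (fun p => (a, i - hf r p.2)) := by
    ext ⟨b, j⟩
    simp only [mem_filter, mem_univ, true_and, mem_union, mem_image, Prod.mk.injEq, Prod.exists]
    constructor
    · rintro ⟨rfl, d, hd, h | h⟩
      · exact Or.inl ⟨a, d, ⟨hd, rfl⟩, rfl, by rw [← h]; ring⟩
      · exact Or.inr ⟨a, d, ⟨hd, rfl⟩, rfl, by rw [← h]; ring⟩
    · rintro (⟨x, d, ⟨hd, rfl⟩, rfl, h⟩ | ⟨x, d, ⟨hd, rfl⟩, rfl, h⟩)
      · exact ⟨rfl, d, hd, Or.inl (by rw [← h]; ring)⟩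
      · exact ⟨rfl, d, hd, Or.inr (by rw [← h]; ring)⟩
  rw [h1, Finset.card_union_of_disjoint, Finset.card_image_of_injOn, Finset.card_image_of_injOn,
    two_mul]
  · rintro ⟨x, d⟩ hx ⟨x', d'⟩ hx' h
    simp only [coe_filter, Set.mem_ofPred_eq] at hx hx'
    obtain ⟨_, rfl⟩ := hx
    obtain ⟨_, rfl⟩ := hx'
    simp only [Prod.mk.injEq, true_and] at h
    rw [hf_inj (sub_right_injective h)]
  · rintro ⟨x, d⟩ hx ⟨x', d'⟩ hx' h
    simp only [coe_filter, Set.mem_ofPred_eq] at hx hx'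
    obtain ⟨_, rfl⟩ := hx
    obtain ⟨_, rfl⟩ := hx'
    simp only [Prod.mk.injEq, true_and] at h
    rw [hf_inj (add_left_cancel h)]
  · rw [Finset.disjoint_left]
    intro w hw hw'
    simp only [mem_image, mem_filter] at hw hw'
    obtain ⟨p, _, rfl⟩ := hw
    obtain ⟨p', _, h⟩ := hw'
    simp only [Prod.mk.injEq, true_and] at h
    apply hf_neg p.2 p'.2
    have h2 : i + -hf r p'.2 = i + hf r p.2 := by rw [← h]; ring
    exact (add_left_cancel h2).symm

/-- the degrees -/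
theorem degR (S : Finset ((Fin m × Fin m) × Fin r)) (hS : ∀ e ∈ S, e.1.1 < e.1.2)
    (P : Finset (Fin m × Fin ((r - 1) / 2))) (a : Fin m) (i : ZMod r) :
    (univ.filter (fun w => AdjR S P (a, i) w)).card =
      (S.filter (fun e => e.1.1 = a)).card + ((S.filter (fun e => e.1.2 = a)).card +
        2 * (P.filter (fun p => p.1 = a)).card) := by
  rw [← card1 S hS a i, ← card2 S hS a i, ← card3 P a i, ← Finset.card_union_of_disjoint,
    ← Finset.card_union_of_disjoint]
  · congr 1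
    ext w
    simp only [mem_filter, mem_univ, true_and, mem_union]
    exact Iff.rfl
  · rw [Finset.disjoint_left]
    intro w hw hw'
    simp only [mem_filter, mem_univ, true_and, mem_union] at hw hw'
    rcases hw' with hw' | hw'
    · exact lt_asymm hw.1 hw'.1
    · exact hw.1.ne hw'.1
  · rw [Finset.disjoint_left]
    intro w hw hw'
    simp only [mem_filter, mem_univ, true_and] at hw hw'
    exact hw.1.ne hw'.1.symm

theorem card_split (S : Finset ((Fin m × Fin m) × Fin r)) (hS : ∀ e ∈ S, e.1.1 < e.1.2)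
    (a : Fin m) : (S.filter (fun e => e.1.1 = a ∨ e.1.2 = a)).card =
      (S.filter (fun e => e.1.1 = a)).card + (S.filter (fun e => e.1.2 = a)).card := by
  rw [Finset.filter_or, Finset.card_union_of_disjoint]
  rw [Finset.disjoint_left]
  intro e he he'
  simp only [mem_filter] at he he'
  exact (hS e he.1).ne (he.2.trans he'.2.symm)

/-- the number of adjacent pairs -/
theorem pairsR (S : Finset ((Fin m × Fin m) × Fin r)) (hS : ∀ e ∈ S, e.1.1 < e.1.2)
    (P : Finset (Fin m × Fin ((r - 1) / 2))) :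
    ∑ u : Fin m × ZMod r, (univ.filter (fun w => AdjR S P u w)).card =
      2 * (r * (S.card + P.card)) := by
  rw [Fintype.sum_prod_type]
  simp only [degR S hS P]
  simp only [sum_const, card_univ, ZMod.card, smul_eq_mul]
  rw [← Finset.mul_sum, Finset.sum_add_distrib, Finset.sum_add_distrib, ← Finset.mul_sum]
  have h1 : ∑ a : Fin m, (S.filter (fun e => e.1.1 = a)).card = S.card :=
    (Finset.card_eq_sum_card_fiberwise (fun e _ => mem_univ _)).symm
  have h2 : ∑ a : Fin m, (S.filter (fun e => e.1.2 = a)).card = S.card :=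
    (Finset.card_eq_sum_card_fiberwise (fun e _ => mem_univ _)).symm
  have h3 : ∑ a : Fin m, (P.filter (fun e => e.1 = a)).card = P.card :=
    (Finset.card_eq_sum_card_fiberwise (fun e _ => mem_univ _)).symm
  rw [h1, h2, h3]
  ring

/-- invariance under all rotations -/
theorem inv_all {G : SimpleGraph (Fin m × ZMod r)}
    (hG : ∀ u v, G.Adj (rot m r u) (rot m r v) ↔ G.Adj u v) (t : ZMod r) (a b : Fin m)
    (i j : ZMod r) : G.Adj (a, i + t) (b, j + t) ↔ G.Adj (a, i) (b, j) := by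
  have key : ∀ n : ℕ, ∀ i j : ZMod r,
      G.Adj (a, i + (n : ZMod r)) (b, j + (n : ZMod r)) ↔ G.Adj (a, i) (b, j) := by
    intro n
    induction n with
    | zero => intro i j; simp
    | succ n ih =>
      intro i j
      have h := hG (a, i + (n : ZMod r)) (b, j + (n : ZMod r))
      rw [ih] at h
      rw [← h]
      have e : ∀ (c : Fin m) (k : ZMod r), rot m r (c, k + (n : ZMod r)) =
          (c, k + ((n + 1 : ℕ) : ZMod r)) := by
        intro c k
        show (c, k + (n : ZMod r) + 1) = _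
        rw [Nat.cast_succ, add_assoc]
      rw [e, e]
  have := key t.val i j
  rwa [ZMod.natCast_zmod_val] at this

theorem inv_zero {G : SimpleGraph (Fin m × ZMod r)}
    (hG : ∀ u v, G.Adj (rot m r u) (rot m r v) ↔ G.Adj u v) (a b : Fin m)
    (i j : ZMod r) : G.Adj (a, i) (b, j) ↔ G.Adj (a, 0) (b, j - i) := by
  rw [← inv_all hG (- i) a b i j, add_neg_cancel, sub_eq_add_neg]

/-- the orbits between different cycles -/
noncomputable def SG (G : SimpleGraph (Fin m × ZMod r)) : Finset ((Fin m × Fin m) × Fin r) :=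
  univ.filter fun e => e.1.1 < e.1.2 ∧ G.Adj (e.1.1, 0) (e.1.2, ((e.2 : ℕ) : ZMod r))

/-- the orbits in one cycle -/
noncomputable def PG (G : SimpleGraph (Fin m × ZMod r)) : Finset (Fin m × Fin ((r - 1) / 2)) :=
  univ.filter fun p => G.Adj (p.1, 0) (p.1, hf r p.2)

theorem SG_lt (G : SimpleGraph (Fin m × ZMod r)) : ∀ e ∈ SG G, e.1.1 < e.1.2 := by
  intro e he
  exact (Finset.mem_filter.1 he).2.1

theorem SG_Gr (S : Finset ((Fin m × Fin m) × Fin r)) (hS : ∀ e ∈ S, e.1.1 < e.1.2)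
    (P : Finset (Fin m × Fin ((r - 1) / 2))) : SG (Gr S P) = S := by
  ext ⟨⟨a, b⟩, d⟩
  simp only [SG, mem_filter, mem_univ, true_and]
  constructor
  · rintro ⟨h, h1 | h1 | h1⟩
    · have := h1.2
      simp only [sub_zero, cast_fr] at this
      exact this
    · exact absurd h1.1 (lt_asymm h)
    · exact absurd h1.1 h.ne
  · intro h
    refine ⟨hS _ h, Or.inl ⟨hS _ h, ?_⟩⟩
    simp only [sub_zero, cast_fr]
    exact h

theorem PG_Gr (S : Finset ((Fin m × Fin m) × Fin r))
    (P : Finset (Fin m × Fin ((r - 1) / 2))) : PG (Gr S P) = P := by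
  ext ⟨a, d⟩
  simp only [PG, mem_filter, mem_univ, true_and]
  constructor
  · rintro (h1 | h1 | ⟨_, d', h1, h2⟩)
    · exact absurd h1.1 (lt_irrefl _)
    · exact absurd h1.1 (lt_irrefl _)
    · simp only [sub_zero, zero_sub] at h2
      rcases h2 with h2 | h2
      · rw [hf_inj h2]
        exact h1
      · exact absurd h2.symm (hf_neg _ _)
  · intro h
    exact Or.inr (Or.inr ⟨rfl, d, h, Or.inl (sub_zero _)⟩)

theorem Gr_SG (hr : Odd r) {G : SimpleGraph (Fin m × ZMod r)}
    (hG : ∀ u v, G.Adj (rot m r u) (rot m r v) ↔ G.Adj u v) : Gr (SG G) (PG G) = G := by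
  ext ⟨a, i⟩ ⟨b, j⟩
  show AdjR (SG G) (PG G) (a, i) (b, j) ↔ _
  unfold AdjR
  simp only [SG, PG, mem_filter, mem_univ, true_and, fr_cast]
  constructor
  · rintro (⟨_, _, h⟩ | ⟨_, _, h⟩ | ⟨rfl, d, h, h2 | h2⟩)
    · rwa [inv_zero hG]
    · rw [G.adj_comm, inv_zero hG]
      exact h
    · rw [inv_zero hG, h2]
      exact h
    · rw [G.adj_comm, inv_zero hG, h2]
      exact h
  · intro h
    rcases lt_trichotomy a b with hab | hab | hab
    · exact Or.inl ⟨hab, hab, (inv_zero hG _ _ _ _).1 h⟩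
    · subst hab
      have hne : j - i ≠ 0 := by
        intro h0
        rw [sub_eq_zero.1 h0] at h
        exact G.loopless.irrefl _ h
      obtain ⟨d, hd⟩ := hf_cover hr _ hne
      rcases hd with hd | hd
      · refine Or.inr (Or.inr ⟨rfl, d, ?_, Or.inl hd⟩)
        rw [← hd]
        exact (inv_zero hG _ _ _ _).1 h
      · rw [neg_sub] at hd
        refine Or.inr (Or.inr ⟨rfl, d, ?_, Or.inr hd⟩)
        rw [← hd]
        exact (inv_zero hG _ _ _ _).1 h.symm
    · exact Or.inr (Or.inl ⟨hab, hab, (inv_zero hG _ _ _ _).1 h.symm⟩)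

theorem Gr_inv (S : Finset ((Fin m × Fin m) × Fin r)) (P : Finset (Fin m × Fin ((r - 1) / 2)))
    (u v : Fin m × ZMod r) : (Gr S P).Adj (rot m r u) (rot m r v) ↔ (Gr S P).Adj u v := by
  obtain ⟨a, i⟩ := u
  obtain ⟨b, j⟩ := v
  show AdjR S P (a, i + 1) (b, j + 1) ↔ AdjR S P (a, i) (b, j)
  unfold AdjR
  simp only [add_sub_add_right_eq_sub]

theorem deg_eq (G : SimpleGraph (Fin m × ZMod r)) (v : Fin m × ZMod r)
    [Fintype (G.neighborSet v)] : G.degree v = (univ.filter (fun w => G.Adj v w)).card := by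
  rw [← G.card_neighborFinset_eq_degree]
  congr 1
  ext w
  simp

theorem edge_eq (G : SimpleGraph (Fin m × ZMod r)) [Fintype G.edgeSet] (c : ℕ)
    (h : ∑ v, (univ.filter (fun w => G.Adj v w)).card = 2 * c) : G.edgeFinset.card = c := by
  have h1 := G.sum_degrees_eq_twice_card_edges
  simp only [deg_eq] at h1
  rw [h] at h1
  have h2 : ∀ (i1 i2 : Fintype G.edgeSet), (@SimpleGraph.edgeFinset _ G i1).card =
      (@SimpleGraph.edgeFinset _ G i2).card := by
    intro i1 i2
    rw [Subsingleton.elim i1 i2]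
  have h3 := Nat.eq_of_mul_eq_mul_left (by norm_num : 0 < 2) h1
  rw [h3]
  exact h2 _ _

theorem even_iff (S : Finset ((Fin m × Fin m) × Fin r)) (hS : ∀ e ∈ S, e.1.1 < e.1.2)
    (P : Finset (Fin m × Fin ((r - 1) / 2))) (a : Fin m) (i : ZMod r) :
    Even (univ.filter (fun w => AdjR S P (a, i) w)).card ↔
      Even (S.filter fun e => e.1.1 = a ∨ e.1.2 = a).card := by
  rw [degR S hS P a i, card_split S hS a, ← add_assoc, Nat.even_add]
  simp

theorem graphA : S_graphA := by
  intro m r _ hr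
  have h1 : ((1 : Polynomial ℤ) + Polynomial.X ^ r) ^ (m * ((r - 1) / 2)) =
      ∑ P ∈ (univ : Finset (Fin m × Fin ((r - 1) / 2))).powerset,
        ((Polynomial.X : Polynomial ℤ) ^ r) ^ P.card := by
    have := Finset.sum_pow_mul_eq_add_pow ((Polynomial.X : Polynomial ℤ) ^ r) 1
      (univ : Finset (Fin m × Fin ((r - 1) / 2)))
    simp only [one_pow, mul_one] at this
    rw [this, add_comm]
    simp
  rw [h1, Finset.sum_mul_sum, ← Finset.sum_product']
  symm
  unfold W
  refine Finset.sum_nbij' (fun x => Gr x.2 x.1) (fun G => (PG G, SG G)) ?_ ?_ ?_ ?_ ?_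
  · rintro ⟨P, S⟩ hx
    obtain ⟨hP, hS⟩ := Finset.mem_product.1 hx
    simp only [evenSets, Finset.mem_filter, Finset.mem_powerset] at hS
    have hS1 : ∀ e ∈ S, e.1.1 < e.1.2 := fun e he => (Finset.mem_filter.1 (hS.1 he)).2
    rw [Finset.mem_filter]
    refine ⟨@Finset.mem_univ _ (_) _, ?_, fun u v => Gr_inv S P u v⟩
    rintro ⟨a, i⟩
    rw [deg_eq]
    exact (even_iff S hS1 P a i).2 (hS.2 a)
  · intro G hG
    obtain ⟨_, he, hG⟩ := Finset.mem_filter.1 hG
    refine Finset.mem_product.2 ⟨Finset.mem_powerset.2 (Finset.subset_univ _), ?_⟩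
    simp only [evenSets, Finset.mem_filter, Finset.mem_powerset]
    refine ⟨?_, fun a => ?_⟩
    · intro e he
      exact Finset.mem_filter.2 ⟨Finset.mem_univ _, SG_lt G e he⟩
    · have h2 := he (a, 0)
      rw [deg_eq] at h2
      rw [← even_iff (SG G) (SG_lt G) (PG G) a 0]
      have h3 : (univ.filter (fun w => G.Adj (a, 0) w)) =
          (univ.filter (fun w => AdjR (SG G) (PG G) (a, 0) w)) := by
        ext w
        simp only [Finset.mem_filter, Finset.mem_univ, true_and]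
        show _ ↔ (Gr (SG G) (PG G)).Adj (a, 0) w
        rw [Gr_SG hr hG]
      rw [← h3]
      exact h2
  · rintro ⟨P, S⟩ hx
    obtain ⟨hP, hS⟩ := Finset.mem_product.1 hx
    simp only [evenSets, Finset.mem_filter, Finset.mem_powerset] at hS
    have hS1 : ∀ e ∈ S, e.1.1 < e.1.2 := fun e he => (Finset.mem_filter.1 (hS.1 he)).2
    show (PG (Gr S P), SG (Gr S P)) = (P, S)
    rw [PG_Gr, SG_Gr S hS1]
  · intro G hG
    obtain ⟨_, he, hG⟩ := Finset.mem_filter.1 hG
    exact Gr_SG hr hG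
  · rintro ⟨P, S⟩ hx
    obtain ⟨hP, hS⟩ := Finset.mem_product.1 hx
    simp only [evenSets, Finset.mem_filter, Finset.mem_powerset] at hS
    have hS1 : ∀ e ∈ S, e.1.1 < e.1.2 := fun e he => (Finset.mem_filter.1 (hS.1 he)).2
    rw [edge_eq (Gr S P) (r * (S.card + P.card)) (pairsR S hS1 P)]
    rw [← pow_add, ← pow_mul, add_comm P.card]

end Pool.Agent.H94.EG
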